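import Mathlib
import Pool.Agent.KS6_63.PA.L.Upper

open Filter Topology

namespace Pool.Agent.H96cond

noncomputable section

variable (𝕜 : Type) [RCLike 𝕜]

/-- The indices of the blocks from `2 ^ q` to `2 ^ (q + 1)`. -/
def FF (q : ℕ) : Finset ℕ := Finset.Ico (2 ^ 2 ^ q - 1) (2 ^ 2 ^ (q + 1) - 1)

lemma mem_Ico_blk (a b n : ℕ) (hab : a ≤ b) :
    n ∈ Finset.Ico (2 ^ a - 1) (2 ^ b - 1) ↔ a ≤ blk n ∧ blk n < b := by
  have h1 : 1 ≤ 2 ^ a := Nat.one_le_two_pow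
  have h2 : 1 ≤ 2 ^ b := Nat.one_le_two_pow
  have hs := blk_spec n
  rw [Finset.mem_Ico]
  constructor
  · rintro ⟨ha, hb⟩
    constructor
    · by_contra h
      have : 2 ^ (blk n + 1) ≤ 2 ^ a := Nat.pow_le_pow_right (by norm_num) (by omega)
      omega
    · by_contra h
      have : 2 ^ b ≤ 2 ^ blk n := Nat.pow_le_pow_right (by norm_num) (by omega)
      omega
  · rintro ⟨ha, hb⟩
    have h3 : 2 ^ a ≤ 2 ^ blk n := Nat.pow_le_pow_right (by norm_num) ha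
    have h4 : 2 ^ (blk n + 1) ≤ 2 ^ b := Nat.pow_le_pow_right (by norm_num) (by omega)
    omega

lemma mem_FF (q n : ℕ) : n ∈ FF q ↔ 2 ^ q ≤ blk n ∧ blk n < 2 ^ (q + 1) :=
  mem_Ico_blk _ _ _ (Nat.pow_le_pow_right (by norm_num) (by omega))

lemma sum_Ico_sq (a b : ℕ) (hab : a ≤ b) :
    ∑ n ∈ Finset.Ico (2 ^ a - 1) (2 ^ b - 1), bb n ^ 2 = (b : ℝ) - a := by
  induction b, hab using Nat.le_induction with
  | base => simp
  | succ b hab ih =>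
    have h1 : 2 ^ a - 1 ≤ 2 ^ b - 1 := Nat.sub_le_sub_right (Nat.pow_le_pow_right (by norm_num) hab) _
    have h2 : 2 ^ b - 1 ≤ 2 ^ (b + 1) - 1 :=
      Nat.sub_le_sub_right (Nat.pow_le_pow_right (by norm_num) (by omega)) _
    rw [← Finset.sum_Ico_consecutive _ h1 h2, ih]
    have := sum_bset_sq b
    rw [bset] at this
    rw [this]
    push_cast
    ring

lemma sum_FF (q : ℕ) : ∑ n ∈ FF q, bb n ^ 2 = 2 ^ q := by
  rw [FF, sum_Ico_sq _ _ (Nat.pow_le_pow_right (by norm_num) (by omega))]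
  push_cast
  ring

/-- The test vector. -/
def hq (q : ℕ) : E0 𝕜 := ∑ n ∈ FF q, (((-1) ^ blk n * bb n : ℝ) : 𝕜) • evec 𝕜 n

lemma hq_mem (q : ℕ) : hq 𝕜 q ∈ HH 𝕜 :=
  Submodule.sum_mem _ fun n _ => Submodule.smul_mem _ _ (evec_mem 𝕜 n)

lemma hq_inl (q m : ℕ) : hq 𝕜 q (Sum.inl m) =
    if m ∈ FF q then (((-1) ^ blk m * bb m : ℝ) : 𝕜) else 0 := sum_inl 𝕜 _ _ m

lemma hq_zero (q k : ℕ) (hk : 1 ≤ k) : hq 𝕜 q (Sum.inr (0, k)) =
    if 2 ^ q ≤ k ∧ k < 2 ^ (q + 1) then (((-1) ^ k : ℝ) : 𝕜) else 0 := by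
  rw [rel_zero 𝕜 (hq_mem 𝕜 q) k hk]
  split_ifs with h
  · have h1 : ∀ n ∈ bset k, (bb n : 𝕜) * hq 𝕜 q (Sum.inl n) = (((-1) ^ k * bb n ^ 2 : ℝ) : 𝕜) := by
      intro n hn
      have hb := mem_bset.1 hn
      rw [hq_inl, if_pos ((mem_FF q n).2 (hb ▸ h)), hb]
      push_cast
      ring
    rw [Finset.sum_congr rfl h1, ← RCLike.ofReal_sum, ← Finset.mul_sum, sum_bset_sq, mul_one]
  · apply Finset.sum_eq_zero
    intro n hn
    have hb := mem_bset.1 hn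
    rw [hq_inl, if_neg (fun h' => h (hb ▸ (mem_FF q n).1 h')), mul_zero]

lemma hq_succ (q : ℕ) (hq1 : 1 ≤ q) (j : ℕ) :
    ∀ p, 1 ≤ p → hq 𝕜 q (Sum.inr (j + 1, p)) = 0 := by
  induction j with
  | zero =>
    intro p hp
    rw [rel_succ 𝕜 (hq_mem 𝕜 q) 0 p hp, hq_zero 𝕜 q _ (by omega), hq_zero 𝕜 q _ (by omega)]
    obtain ⟨Q, rfl⟩ : ∃ Q, q = Q + 1 := ⟨q - 1, by omega⟩
    have h2 : (2 ^ (Q + 1) ≤ 2 * p ∧ 2 * p < 2 ^ (Q + 1 + 1)) ↔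
        (2 ^ (Q + 1) ≤ 2 * p + 1 ∧ 2 * p + 1 < 2 ^ (Q + 1 + 1)) := by
      rw [pow_succ 2 (Q + 1), pow_succ 2 Q]
      omega
    by_cases h : 2 ^ (Q + 1) ≤ 2 * p ∧ 2 * p < 2 ^ (Q + 1 + 1)
    · rw [if_pos h, if_pos (h2.1 h), pow_succ, pow_mul]
      simp
    · rw [if_neg h, if_neg (fun h' => h (h2.2 h'))]
      simp
  | succ j ih =>
    intro p hp
    rw [rel_succ 𝕜 (hq_mem 𝕜 q) (j + 1) p hp, ih _ (by omega), ih _ (by omega)]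
    simp

lemma inr_zero_idx {x : E0 𝕜} (hx : x ∈ HH 𝕜) (j : ℕ) : x (Sum.inr (j, 0)) = 0 := by
  have h := rel_of 𝕜 (ev 𝕜 (Sum.inr (j, 0))) (fun m => by
    rw [ev_apply, evec_inr, if_neg (by omega)]) hx
  exact h

lemma hq_norm (q : ℕ) (hq1 : 1 ≤ q) : ‖hq 𝕜 q‖ ≤ Real.sqrt (2 * 2 ^ q) := by
  apply norm_le_of_sum _ _ _ (Real.sqrt_nonneg _)
  intro s
  rw [Real.sq_sqrt (by positivity), ← Finset.sum_filter_ne_zero]
  have h1 : ∑ i ∈ s with ‖hq 𝕜 q i‖ ^ 2 ≠ 0, ‖hq 𝕜 q i‖ ^ 2 ≤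
      ∑ i ∈ (FF q).disjSum ((Finset.Ico (2 ^ q) (2 ^ (q + 1))).map
        ⟨fun k => (0, k), fun a b h => (Prod.mk.inj h).2⟩), ‖hq 𝕜 q i‖ ^ 2 := by
    apply Finset.sum_le_sum_of_subset_of_nonneg
    · intro i hi
      rw [Finset.mem_filter] at hi
      obtain ⟨_, hne⟩ := hi
      rcases i with m | ⟨j, p⟩
      · rw [Finset.inl_mem_disjSum]
        by_contra h
        rw [hq_inl, if_neg h] at hne
        simp at hne
      · rw [Finset.inr_mem_disjSum]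
        have hp : 1 ≤ p := by
          by_contra h
          obtain rfl : p = 0 := by omega
          rw [inr_zero_idx 𝕜 (hq_mem 𝕜 q)] at hne
          simp at hne
        cases j with
        | zero =>
          rw [hq_zero 𝕜 q p hp] at hne
          rw [Finset.mem_map]
          refine ⟨p, ?_, rfl⟩
          rw [Finset.mem_Ico]
          by_contra h
          rw [if_neg h] at hne
          simp at hne
        | succ j =>
          rw [hq_succ 𝕜 q hq1 j p hp] at hne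
          simp at hne
    · intro i _ _
      positivity
  refine h1.trans ?_
  rw [Finset.sum_disjSum, Finset.sum_map]
  have h2 : ∑ x ∈ FF q, ‖hq 𝕜 q (Sum.inl x)‖ ^ 2 = 2 ^ q := by
    rw [← sum_FF]
    apply Finset.sum_congr rfl
    intro n hn
    rw [hq_inl, if_pos hn, RCLike.norm_ofReal, abs_mul, abs_pow, abs_neg, abs_one, one_pow,
      one_mul, sq_abs]
  have h3 : ∑ x ∈ Finset.Ico (2 ^ q) (2 ^ (q + 1)), ‖hq 𝕜 q (Sum.inr (0, x))‖ ^ 2 = 2 ^ q := by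
    have h4 : ∀ x ∈ Finset.Ico (2 ^ q) (2 ^ (q + 1)), ‖hq 𝕜 q (Sum.inr (0, x))‖ ^ 2 = 1 := by
      intro k hk
      have h1 : 1 ≤ 2 ^ q := Nat.one_le_two_pow
      have hk' := Finset.mem_Ico.1 hk
      rw [hq_zero 𝕜 q k (by omega), if_pos hk', RCLike.norm_ofReal, abs_pow, abs_neg, abs_one,
        one_pow, one_pow]
    rw [Finset.sum_congr rfl h4, Finset.sum_const, Nat.card_Ico, pow_succ]
    have : 2 ^ q * 2 - 2 ^ q = 2 ^ q := by omega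
    rw [this]
    simp
  have h5 : ∑ x ∈ Finset.Ico (2 ^ q) (2 ^ (q + 1)),
      ‖hq 𝕜 q (Sum.inr ((⟨fun k => (0, k), fun a b h => (Prod.mk.inj h).2⟩ : ℕ ↪ ℕ × ℕ) x))‖ ^ 2 =
      2 ^ q := h3
  rw [h2, h5]
  linarith

/-- The even part of the index set. -/
def EF (q : ℕ) : Finset ℕ := (FF q).filter (fun n => Even (blk n))

lemma gq_inl (q m : ℕ) : PS 𝕜 (EF q) (hq 𝕜 q) (Sum.inl m) =
    if m ∈ EF q then ((bb m : ℝ) : 𝕜) else 0 := by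
  rw [PS_inl]
  split_ifs with h
  · have h' := Finset.mem_filter.1 h
    rw [hq_inl, if_pos h'.1, h'.2.neg_one_pow, one_mul]
  · rfl

lemma gq_zero (q k : ℕ) (hk : 1 ≤ k) : PS 𝕜 (EF q) (hq 𝕜 q) (Sum.inr (0, k)) =
    if (2 ^ q ≤ k ∧ k < 2 ^ (q + 1)) ∧ Even k then 1 else 0 := by
  rw [rel_zero 𝕜 (PS_mem 𝕜 _ _) k hk]
  have hmem : ∀ n ∈ bset k, (n ∈ EF q ↔ (2 ^ q ≤ k ∧ k < 2 ^ (q + 1)) ∧ Even k) := by
    intro n hn
    have hb := mem_bset.1 hn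
    rw [EF, Finset.mem_filter, mem_FF, hb]
  split_ifs with h
  · have h1 : ∀ n ∈ bset k, (bb n : 𝕜) * PS 𝕜 (EF q) (hq 𝕜 q) (Sum.inl n) =
        ((bb n ^ 2 : ℝ) : 𝕜) := by
      intro n hn
      rw [gq_inl, if_pos ((hmem n hn).2 h)]
      push_cast
      ring
    rw [Finset.sum_congr rfl h1, ← RCLike.ofReal_sum, sum_bset_sq, RCLike.ofReal_one]
  · apply Finset.sum_eq_zero
    intro n hn
    rw [gq_inl, if_neg (fun h' => h ((hmem n hn).1 h')), mul_zero]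

lemma gq_succ (q : ℕ) (j : ℕ) : j + 1 ≤ q → ∀ p, 2 ^ (q - (j + 1)) ≤ p → p < 2 ^ (q - j) →
    PS 𝕜 (EF q) (hq 𝕜 q) (Sum.inr (j + 1, p)) = ((rr ^ (j + 1) * 2 ^ j : ℝ) : 𝕜) := by
  induction j with
  | zero =>
    intro hj p h1 h2
    have h0 : 1 ≤ 2 ^ (q - (0 + 1)) := Nat.one_le_two_pow
    obtain ⟨Q, rfl⟩ : ∃ Q, q = Q + 1 := ⟨q - 1, by omega⟩
    have e1 : Q + 1 - (0 + 1) = Q := by omega
    have e2 : Q + 1 - 0 = Q + 1 := by omega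
    rw [e1] at h1 h0
    rw [e2, pow_succ] at h2
    rw [rel_succ 𝕜 (PS_mem 𝕜 _ _) 0 p (by omega), gq_zero 𝕜 _ _ (by omega),
      gq_zero 𝕜 _ _ (by omega), if_pos, if_neg]
    · push_cast
      ring
    · rintro ⟨_, h⟩
      rw [Nat.even_iff] at h
      omega
    · refine ⟨⟨?_, ?_⟩, ⟨p, by ring⟩⟩
      · rw [pow_succ]; omega
      · rw [pow_succ, pow_succ]; omega
  | succ j ih =>
    intro hj p h1 h2
    have h0 : 1 ≤ 2 ^ (q - (j + 1 + 1)) := Nat.one_le_two_pow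
    have e1 : q - (j + 1) = q - (j + 1 + 1) + 1 := by omega
    have e2 : q - j = q - (j + 1 + 1) + 1 + 1 := by omega
    rw [e1, e2] at ih
    rw [e1] at h2
    rw [pow_succ, pow_succ] at ih
    rw [pow_succ] at h2
    rw [rel_succ 𝕜 (PS_mem 𝕜 _ _) (j + 1) p (by omega), ih (by omega) _ (by omega) (by omega),
      ih (by omega) _ (by omega) (by omega)]
    push_cast
    ring

lemma gq_norm (q : ℕ) : (q : ℝ) * 2 ^ q / 4 ≤ ‖PS 𝕜 (EF q) (hq 𝕜 q)‖ ^ 2 := by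
  have hinj : Function.Injective (fun a : Σ _ : ℕ, ℕ => (Sum.inr (a.1 + 1, a.2) : Idx)) := by
    rintro ⟨a1, a2⟩ ⟨b1, b2⟩ h
    simp only [Sum.inr.injEq, Prod.mk.injEq, add_left_inj] at h
    obtain ⟨rfl, rfl⟩ := h
    rfl
  have h := sum_sq_le 𝕜 (PS 𝕜 (EF q) (hq 𝕜 q))
    (((Finset.range q).sigma (fun j => Finset.Ico (2 ^ (q - (j + 1))) (2 ^ (q - j)))).map ⟨_, hinj⟩)
  refine le_trans (le_of_eq ?_) h
  rw [Finset.sum_map, Finset.sum_sigma]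
  have h1 : ∀ j ∈ Finset.range q, ∑ p ∈ Finset.Ico (2 ^ (q - (j + 1))) (2 ^ (q - j)),
      ‖PS 𝕜 (EF q) (hq 𝕜 q) (Sum.inr (j + 1, p))‖ ^ 2 = 2 ^ q / 4 := by
    intro j hj
    rw [Finset.mem_range] at hj
    have h2 : ∀ p ∈ Finset.Ico (2 ^ (q - (j + 1))) (2 ^ (q - j)),
        ‖PS 𝕜 (EF q) (hq 𝕜 q) (Sum.inr (j + 1, p))‖ ^ 2 = (1 / 2) ^ (j + 1) * 4 ^ j := by
      intro p hp
      rw [Finset.mem_Ico] at hp
      rw [gq_succ 𝕜 q j (by omega) p hp.1 hp.2, RCLike.norm_ofReal, sq_abs, mul_pow, ← pow_mul,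
        mul_comm (j + 1) 2, pow_mul, rr_sq, ← pow_mul, mul_comm j 2, pow_mul]
      norm_num
    rw [Finset.sum_congr rfl h2, Finset.sum_const, Nat.card_Ico]
    obtain ⟨d, rfl⟩ : ∃ d, q = j + 1 + d := ⟨q - (j + 1), by omega⟩
    have e1 : j + 1 + d - (j + 1) = d := by omega
    have e2 : j + 1 + d - j = d + 1 := by omega
    have e3 : 2 ^ (d + 1) - 2 ^ d = 2 ^ d := by rw [pow_succ]; omega
    rw [e1, e2, e3, nsmul_eq_mul]
    push_cast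
    rw [show (4 : ℝ) = 2 ^ 2 by norm_num, ← pow_mul, one_div, inv_pow]
    field_simp
    ring
  have h3 : ∑ j ∈ Finset.range q, ∑ p ∈ Finset.Ico (2 ^ (q - (j + 1))) (2 ^ (q - j)),
      ‖PS 𝕜 (EF q) (hq 𝕜 q) (Sum.inr (j + 1, p))‖ ^ 2 = q * 2 ^ q / 4 := by
    rw [Finset.sum_congr rfl h1, Finset.sum_const, Finset.card_range, nsmul_eq_mul]
    ring
  exact h3.symm

theorem not_unif_bounded : ¬ ∃ C : ℝ, ∀ x ∈ HH 𝕜, ∀ t : Finset ℕ, ‖PS 𝕜 t x‖ ≤ C * ‖x‖ := by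
  rintro ⟨C, hC⟩
  obtain ⟨q, hq'⟩ := exists_nat_gt (8 * C ^ 2)
  have hq1 : 1 ≤ q := by
    by_contra h
    obtain rfl : q = 0 := by omega
    have := sq_nonneg C
    norm_num at hq'
    linarith
  have h1 := hC (hq 𝕜 q) (hq_mem 𝕜 q) (EF q)
  have h2 := hq_norm 𝕜 q hq1
  have h3 := gq_norm 𝕜 q
  have h4 : ‖PS 𝕜 (EF q) (hq 𝕜 q)‖ ^ 2 ≤ (C * ‖hq 𝕜 q‖) ^ 2 := by
    gcongr
  have h5 : ‖hq 𝕜 q‖ ^ 2 ≤ 2 * 2 ^ q := by
    calc ‖hq 𝕜 q‖ ^ 2 ≤ (Real.sqrt (2 * 2 ^ q)) ^ 2 := by gcongr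
      _ = _ := Real.sq_sqrt (by positivity)
  have h6 : (q : ℝ) * 2 ^ q / 4 ≤ C ^ 2 * (2 * 2 ^ q) := by
    calc (q : ℝ) * 2 ^ q / 4 ≤ C ^ 2 * ‖hq 𝕜 q‖ ^ 2 := by rw [← mul_pow]; linarith
      _ ≤ _ := by gcongr
  have h7 : (0 : ℝ) < 2 ^ q := by positivity
  nlinarith

end

end Pool.Agent.H96cond
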