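import Mathlib
import Pool.Agent.KS6_63.PA.L.Norm2
import Pool.Agent.KS6_63.PA.L.Cond

open Filter Topology

namespace Pool.Agent.H96cond

noncomputable section

/-- Transport of a system along a linear isometry. -/
def Sys.map {𝕜 : Type} [RCLike 𝕜] {H : Type} [NormedAddCommGroup H] [NormedSpace 𝕜 H]
    {H' : Type} [NormedAddCommGroup H'] [NormedSpace 𝕜 H'] (S : Sys 𝕜 H) (Φ : H ≃ₗᵢ[𝕜] H') :
    Sys 𝕜 H' where
  e n := Φ (S.e n)
  a n := (S.a n).comp (Φ.symm.toContinuousLinearEquiv : H' →L[𝕜] H)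
  biorth m n := by
    have h : (Φ.symm.toContinuousLinearEquiv : H' →L[𝕜] H) (Φ (S.e n)) = S.e n :=
      Φ.symm_apply_apply _
    rw [ContinuousLinearMap.comp_apply, h, S.biorth]
  l2 s h := by
    have h1 := S.l2 s (Φ.symm h)
    rw [Φ.symm.norm_map] at h1
    exact h1
  up s c := by
    have h1 : ∑ n ∈ s, c n • Φ (S.e n) = Φ (∑ n ∈ s, c n • S.e n) := by
      rw [map_sum]
      exact Finset.sum_congr rfl fun n _ => (map_smul Φ _ _).symm
    rw [h1, Φ.norm_map]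
    exact S.up s c
  proj K h := by
    have h1 : ∑ n ∈ Finset.range K, ((S.a n).comp (Φ.symm.toContinuousLinearEquiv : H' →L[𝕜] H)) h •
        Φ (S.e n) = Φ (∑ n ∈ Finset.range K, S.a n (Φ.symm h) • S.e n) := by
      rw [map_sum]
      exact Finset.sum_congr rfl fun n _ => (map_smul Φ _ _).symm
    rw [h1, Φ.norm_map, ← Φ.symm.norm_map h]
    exact S.proj K _
  conv h := by
    have h1 : ∀ K, ∑ n ∈ Finset.range K,
        ((S.a n).comp (Φ.symm.toContinuousLinearEquiv : H' →L[𝕜] H)) h •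
        Φ (S.e n) = Φ (∑ n ∈ Finset.range K, S.a n (Φ.symm h) • S.e n) := by
      intro K
      rw [map_sum]
      exact Finset.sum_congr rfl fun n _ => (map_smul Φ _ _).symm
    simp only [h1]
    have h2 := (Φ.continuous.tendsto _).comp (S.conv (Φ.symm h))
    rw [Φ.apply_symm_apply] at h2
    exact h2

/-- The finite sums are not uniformly bounded. -/
def Bad {𝕜 : Type} [RCLike 𝕜] {H : Type} [NormedAddCommGroup H] [NormedSpace 𝕜 H]
    (S : Sys 𝕜 H) : Prop :=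
  ¬ ∃ C : ℝ, ∀ (x : H) (t : Finset ℕ), ‖∑ n ∈ t, S.a n x • S.e n‖ ≤ C * ‖x‖

lemma bad_map {𝕜 : Type} [RCLike 𝕜] {H : Type} [NormedAddCommGroup H] [NormedSpace 𝕜 H]
    {H' : Type} [NormedAddCommGroup H'] [NormedSpace 𝕜 H'] (S : Sys 𝕜 H) (Φ : H ≃ₗᵢ[𝕜] H')
    (hb : Bad S) : Bad (S.map Φ) := by
  rintro ⟨C, hC⟩
  apply hb
  refine ⟨C, fun x t => ?_⟩
  have h := hC (Φ x) t
  have h1 : ∑ n ∈ t, (S.map Φ).a n (Φ x) • (S.map Φ).e n = Φ (∑ n ∈ t, S.a n x • S.e n) := by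
    rw [map_sum]
    apply Finset.sum_congr rfl
    intro n _
    have h2 : (S.map Φ).a n (Φ x) = S.a n x := by
      change S.a n (Φ.symm (Φ x)) = S.a n x
      rw [Φ.symm_apply_apply]
    rw [h2, map_smul]
    rfl
  rw [h1, Φ.norm_map, Φ.norm_map] at h
  exact h

lemma bad_not_summable {𝕜 : Type} [RCLike 𝕜] {H : Type} [NormedAddCommGroup H] [NormedSpace 𝕜 H]
    [CompleteSpace H] (S : Sys 𝕜 H) (hb : Bad S) :
    ∃ x, ¬ Summable (fun n => S.a n x • S.e n) := by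
  by_contra hcon
  push Not at hcon
  apply hb
  let T : Finset ℕ → H →L[𝕜] H := fun t => ∑ n ∈ t, (S.a n).smulRight (S.e n)
  have hT : ∀ t x, T t x = ∑ n ∈ t, S.a n x • S.e n := by
    intro t x
    simp only [T]
    rw [sum_apply]
    rfl
  obtain ⟨C, hC⟩ := banach_steinhaus (g := T) (by
    intro x
    obtain ⟨s, hs⟩ := summable_iff_vanishing_norm.1 (hcon x) 1 one_pos
    refine ⟨∑ n ∈ s, ‖S.a n x • S.e n‖ + 1, fun t => ?_⟩
    rw [hT, ← Finset.sum_inter_add_sum_sdiff t s]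
    refine (norm_add_le _ _).trans ?_
    gcongr
    · refine (norm_sum_le _ _).trans ?_
      exact Finset.sum_le_sum_of_subset_of_nonneg Finset.inter_subset_right
        (fun _ _ _ => norm_nonneg _)
    · exact (hs _ Finset.sdiff_disjoint).le)
  refine ⟨C, fun x t => ?_⟩
  rw [← hT]
  exact (T t).le_of_opNorm_le (hC t) x

variable (𝕜 : Type) [RCLike 𝕜]

/-- The concrete system. -/
def sysH : Sys 𝕜 (HH 𝕜) where
  e n := ⟨evec 𝕜 n, evec_mem 𝕜 n⟩
  a n := (ev 𝕜 (Sum.inl n)).comp (HH 𝕜).subtypeL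
  biorth m n := by
    change (evec 𝕜 n) (Sum.inl m) = _
    exact evec_inl 𝕜 n m
  l2 s h := sum_inl_sq_le 𝕜 (h : E0 𝕜) s
  up s c := by
    have h1 := upper_bound 𝕜 s c
    have h2 : ((∑ n ∈ s, c n • (⟨evec 𝕜 n, evec_mem 𝕜 n⟩ : HH 𝕜) : HH 𝕜) : E0 𝕜) =
        ∑ n ∈ s, c n • evec 𝕜 n := by
      rw [Submodule.coe_sum]
      rfl
    rw [← h2] at h1
    exact h1
  proj K h := by
    have h1 := proj_bound 𝕜 h.2 K
    have h2 : ((∑ n ∈ Finset.range K, ((ev 𝕜 (Sum.inl n)).comp (HH 𝕜).subtypeL) h •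
        (⟨evec 𝕜 n, evec_mem 𝕜 n⟩ : HH 𝕜) : HH 𝕜) : E0 𝕜) = PS 𝕜 (Finset.range K) h := by
      rw [Submodule.coe_sum]
      rfl
    rw [← h2] at h1
    exact h1
  conv h := by
    rw [tendsto_subtype_rng]
    have h1 := PS_tendsto 𝕜 h.2
    have h2 : ∀ K, ((∑ n ∈ Finset.range K, ((ev 𝕜 (Sum.inl n)).comp (HH 𝕜).subtypeL) h •
        (⟨evec 𝕜 n, evec_mem 𝕜 n⟩ : HH 𝕜) : HH 𝕜) : E0 𝕜) = PS 𝕜 (Finset.range K) h := by
      intro K
      rw [Submodule.coe_sum]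
      rfl
    simp only [h2]
    exact h1

lemma sysH_bad : Bad (sysH 𝕜) := by
  rintro ⟨C, hC⟩
  apply not_unif_bounded 𝕜
  refine ⟨C, fun x hx t => ?_⟩
  have h := hC ⟨x, hx⟩ t
  have h2 : ((∑ n ∈ t, (sysH 𝕜).a n ⟨x, hx⟩ • (sysH 𝕜).e n : HH 𝕜) : E0 𝕜) = PS 𝕜 t x := by
    rw [Submodule.coe_sum]
    rfl
  rw [← h2]
  exact h

instance : CompleteSpace (HH 𝕜) :=
  (Submodule.isClosed_topologicalClosure _).completeSpace_coe

lemma exists_iso {H : Type} [NormedAddCommGroup H] [InnerProductSpace 𝕜 H] [CompleteSpace H]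
    (e : ℕ → H) (hli : LinearIndependent 𝕜 e)
    (hd : ⊤ ≤ (Submodule.span 𝕜 (Set.range e)).topologicalClosure) :
    Nonempty (H ≃ₗᵢ[𝕜] lp (fun _ : ℕ => 𝕜) 2) := by
  have h1 : Orthonormal 𝕜 (InnerProductSpace.gramSchmidtNormed 𝕜 e) :=
    InnerProductSpace.gramSchmidtNormed_orthonormal hli
  have h2 : Submodule.span 𝕜 (Set.range (InnerProductSpace.gramSchmidtNormed 𝕜 e)) =
      Submodule.span 𝕜 (Set.range e) := by
    rw [InnerProductSpace.span_gramSchmidtNormed_range, InnerProductSpace.span_gramSchmidt]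
  exact ⟨(HilbertBasis.mk h1 (by rw [h2]; exact hd)).repr⟩

lemma li_of_sys {H : Type} [NormedAddCommGroup H] [NormedSpace 𝕜 H] (S : Sys 𝕜 H) :
    LinearIndependent 𝕜 S.e := by
  rw [linearIndependent_iff']
  intro s g hg n hn
  have h := a_sum S s g n
  rw [hg, map_zero, if_pos hn] at h
  exact h.symm

lemma dense_of_sys {H : Type} [NormedAddCommGroup H] [NormedSpace 𝕜 H] (S : Sys 𝕜 H) :
    ⊤ ≤ (Submodule.span 𝕜 (Set.range S.e)).topologicalClosure := by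
  intro x _
  apply mem_closure_of_tendsto (S.conv x)
  refine Eventually.of_forall fun K => ?_
  exact Submodule.sum_mem _ fun n _ => Submodule.smul_mem _ _ (Submodule.subset_span ⟨n, rfl⟩)

/-- There is a system in the sequence space. -/
theorem exists_sys : ∃ S : Sys 𝕜 (lp (fun _ : ℕ => 𝕜) 2), Bad S := by
  obtain ⟨Φ⟩ := exists_iso 𝕜 (sysH 𝕜).e (li_of_sys 𝕜 (sysH 𝕜)) (dense_of_sys 𝕜 (sysH 𝕜))
  exact ⟨(sysH 𝕜).map Φ, bad_map _ Φ (sysH_bad 𝕜)⟩

end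

end Pool.Agent.H96cond
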